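import Pool.Agent.Dess.Dede
import Pool.Agent.VFP.Util

/-!
# Algebraic elements and extension of homomorphisms to `Om k`
-/

set_option autoImplicit false

noncomputable section

namespace Pool.Agent.KAll

open Pool.Agent.ZCyc Pool.Agent.Dess Polynomial
open Pool.Agent.VFP (Om tt)
open scoped IntermediateField.algebraAdjoinAdjoin

variable {k : Type} [Field k]

/-- the elements of `Om k` are algebraic over `k(u)` -/
theorem om_alg {u : Om k} (hu : Transcendental k u) :
    Algebra.IsAlgebraic (IntermediateField.adjoin k {u}) (Om k) := by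
  have h1 : IsTranscendenceBasis k (fun _ : Unit => (X : k[X])) :=
    IsTranscendenceBasis.polynomial _ _
  have h0 : Algebra.IsAlgebraic k[X] (RatFunc k) :=
    IsLocalization.isAlgebraic _ (nonZeroDivisors k[X])
  have h2 := h1.algebraMap_comp (A := RatFunc k)
  have h3 := h2.algebraMap_comp (A := Om k)
  have h4 := h3.lift_cardinalMk_eq_trdeg
  have h5 : AlgebraicIndependent k (fun _ : Unit => u) :=
    algebraicIndependent_unique_type_iff.2 hu
  have h6 := h5.isTranscendenceBasis_of_lift_trdeg_le_of_finite h4.ge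
  have h7 := h6.isAlgebraic_field
  rwa [Set.range_const] at h7

/-- the algebra structure given by an element -/
abbrev polyAlg {K : Type} [Field K] [Algebra k K] (u : K) : Algebra k[X] K :=
  ((aeval u : k[X] →ₐ[k] K) : k[X] →+* K).toAlgebra

theorem isAlg_poly {K : Type} [Field K] [Algebra k K] {u : K}
    (h : Algebra.IsAlgebraic (IntermediateField.adjoin k {u}) K) (f : K) :
    @IsAlgebraic k[X] K _ _ (polyAlg u) f := by
  have h1 : IsAlgebraic (Algebra.adjoin k {u}) f :=
    (IsFractionRing.isAlgebraic_iff (Algebra.adjoin k {u}) (IntermediateField.adjoin k {u}) K).2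
      (Algebra.IsAlgebraic.isAlgebraic f)
  let _ : Algebra k[X] K := polyAlg u
  have hmem : ∀ p : k[X], aeval u p ∈ Algebra.adjoin k {u} := fun p =>
    aeval_mem_adjoin_singleton k u
  let g : k[X] →ₐ[k] Algebra.adjoin k {u} := (aeval u).codRestrict _ hmem
  have hg : Function.Surjective g := by
    rintro ⟨x, hx⟩
    rw [Algebra.adjoin_singleton_eq_range_aeval] at hx
    obtain ⟨p, hp⟩ := hx
    exact ⟨p, Subtype.ext hp⟩
  refine IsAlgebraic.of_ringHom_of_comp_eq (S := Algebra.adjoin k {u}) (B := K) (g : k[X] →+* _)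
    (RingHom.id K) h1 hg Function.injective_id ?_
  rfl

/-- a relation with constant term -/
theorem exists_rel {K : Type} [Field K] [Algebra k K] {u : K}
    (h : Algebra.IsAlgebraic (IntermediateField.adjoin k {u}) K) {f : K} (hf : f ≠ 0) :
    ∃ P : k[X][X], P.coeff 0 ≠ 0 ∧
      eval₂ ((aeval u : k[X] →ₐ[k] K) : k[X] →+* K) f P = 0 := by
  let _ : Algebra k[X] K := polyAlg u
  obtain ⟨P, hP, h1⟩ := (isAlg_poly h f).exists_nonzero_coeff_and_aeval_eq_zero
    (mem_nonZeroDivisors_of_ne_zero hf)
  exact ⟨P, hP, h1⟩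

/-- A homomorphism from a subalgebra of `Om k` to a field, which maps an element to a transcendental
element, is injective. -/
theorem inj_of_transc {F : Type} [Field F] [Algebra k F] {A : Subalgebra k (Om k)}
    (σ : A →ₐ[k] F) {u : A} (hu : Transcendental k (u : Om k)) (hσ : Transcendental k (σ u)) :
    Function.Injective σ := by
  rw [injective_iff_map_eq_zero]
  intro a ha
  by_contra ha0
  have ha1 : (a : Om k) ≠ 0 := fun h => ha0 (Subtype.ext h)
  obtain ⟨P, hP, h1⟩ := exists_rel (om_alg hu) ha1
  let c : k[X] →+* A := ((aeval u : k[X] →ₐ[k] A) : k[X] →+* A)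
  have hc : (A.val : A →+* Om k).comp c =
      ((aeval (u : Om k) : k[X] →ₐ[k] Om k) : k[X] →+* Om k) := by
    refine Polynomial.ringHom_ext (fun x => ?_) ?_
    · simp [c]
    · simp [c]
  have h2 : eval₂ c a P = 0 := by
    apply Subtype.ext
    have h3 := Polynomial.hom_eval₂ P c (A.val : A →+* Om k) a
    rw [hc] at h3
    exact h3.trans h1
  have h4 := congrArg σ h2
  rw [map_zero] at h4
  have h5 : σ (eval₂ c a P) = eval₂ ((σ : A →+* F).comp c) (σ a) P :=
    Polynomial.hom_eval₂ P c (σ : A →+* F) a
  rw [h5, ha, Polynomial.eval₂_at_zero] at h4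
  apply hσ
  refine ⟨P.coeff 0, hP, ?_⟩
  rw [← h4]
  have h6 : aeval (σ u) (P.coeff 0) = σ (aeval u (P.coeff 0)) :=
    Polynomial.aeval_algHom_apply _ _ _
  rw [h6]
  rfl

/-- **Extension to `Om k`.** A homomorphism `σ` from a subalgebra of `Om k` to the function field of
a curve, which maps an element to a transcendental element, has an inverse `F → Om k`. -/
theorem exists_emb [IsAlgClosed k] [CharZero k] {F : Type} [Field F] [Algebra k F] (hF : IsCurve k F)
    {A : Subalgebra k (Om k)} (σ : A →ₐ[k] F) {u : A} (hσ : Transcendental k (σ u)) :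
    ∃ j : F →ₐ[k] Om k, ∀ a : A, j (σ a) = a := by
  have hu : Transcendental k (u : Om k) := by
    intro h
    apply hσ
    obtain ⟨p, hp, hpu⟩ := h
    refine ⟨p, hp, ?_⟩
    rw [Polynomial.aeval_algHom_apply]
    have h1 : aeval u p = 0 := by
      apply Subtype.ext
      have h2 := Polynomial.aeval_algHom_apply A.val u p
      exact h2.symm.trans hpu
    rw [h1, map_zero]
  have hinj := inj_of_transc σ hu hσ
  have hfin := fin_adjoin hF hσ
  have halg : Algebra.IsAlgebraic (IntermediateField.adjoin k {σ u}) F := inferInstance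
  let _ : Algebra A F := (σ : A →+* F).toAlgebra
  have htow : IsScalarTower k A F := IsScalarTower.of_algebraMap_eq fun x => (σ.commutes x).symm
  have hfs : FaithfulSMul A F := (faithfulSMul_iff_algebraMap_injective A F).2 hinj
  have hA : Algebra.IsAlgebraic A F := by
    refine ⟨fun f => ?_⟩
    let _ : Algebra k[X] F := polyAlg (σ u)
    have h1 := isAlg_poly halg f
    let _ : Algebra k[X] A := ((aeval u : k[X] →ₐ[k] A) : k[X] →+* A).toAlgebra
    have h2 : IsScalarTower k[X] A F := by
      refine IsScalarTower.of_algebraMap_eq fun p => ?_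
      exact Polynomial.aeval_algHom_apply σ u p
    refine IsAlgebraic.extendScalars (R := k[X]) (S := A) ?_ h1
    rw [injective_iff_map_eq_zero]
    intro p hp
    by_contra hp0
    apply hσ
    refine ⟨p, hp0, ?_⟩
    rw [Polynomial.aeval_algHom_apply]
    have h3 : aeval u p = 0 := hp
    rw [h3, map_zero]
  let j : F →ₐ[A] Om k := IsAlgClosed.lift
  exact ⟨j.restrictScalars k, fun a => j.commutes a⟩

end Pool.Agent.KAll
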