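import Pool.Agent.KAll.GenPt
import Pool.Agent.KAll.Alg
import Pool.Agent.CV.Loc
import Pool.Agent.TInc.EmbA

/-!
# Every point of a covered variety is a value of the family

Proof. The homomorphism from the affine coordinate ring of the variety, i.e. the algebra generated
by the quotients of the coordinates of the generic point, to `k` given by the point `p` extends to a
place of the field generated by the generic point. There is a curve through the centre of this
place, on which finitely many given functions do not vanish, and the function field of the curve can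
be embedded into `Om k`.
-/

set_option autoImplicit false

noncomputable section

namespace Pool.Agent.KAll

open Pool.Agent.ZCyc Pool.Agent.Dess Polynomial
open Pool.Agent.VFP (Om tt)
open scoped Classical LinearAlgebra.Projectivization

variable {k : Type} [Field k] [IsAlgClosed k] [CharZero k] {m : ℕ}
  {X : Set (MvPolynomial (Fin (m + 1)) k)} {α B : Om k} {M : GT.Mp (Om k) m}

omit [IsAlgClosed k] [CharZero k] in
/-- a parameter of `Om k` which vanishes at a place of a larger field -/
private theorem exists_param {E : Type} [Field E] [Algebra (Om k) E] [Algebra k E]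
    [IsScalarTower k (Om k) E] (V : ValuationSubring E)
    (hV : ∀ x ∈ V, ∃ c : k, V.valuation (x - algebraMap k E c) < 1) :
    ∃ u : Om k, Transcendental k u ∧ V.valuation (algebraMap (Om k) E u) < 1 := by
  by_cases h : algebraMap (Om k) E (tt k) ∈ V
  · obtain ⟨c, hc⟩ := hV _ h
    refine ⟨tt k - algebraMap k (Om k) c, ?_, ?_⟩
    · intro h1
      apply VFP.tt_transc (k := k)
      have h2 := h1.add (isAlgebraic_algebraMap (R := k) (A := Om k) c)
      rwa [sub_add_cancel] at h2
    · rwa [map_sub, ← IsScalarTower.algebraMap_apply]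
  · refine ⟨(tt k)⁻¹, ?_, ?_⟩
    · intro h1
      apply VFP.tt_transc (k := k)
      have h2 := h1.inv
      rwa [inv_inv] at h2
    · rw [map_inv₀]
      have h1 := V.mem_or_inv_mem (algebraMap (Om k) E (tt k))
      have h2 : ¬ V.valuation (algebraMap (Om k) E (tt k)) ≤ 1 := fun h3 =>
        h ((V.valuation_le_one_iff _).1 h3)
      rw [map_inv₀]
      exact inv_lt_one_of_one_lt₀ (not_le.1 h2)

omit [IsAlgClosed k] [CharZero k] in
/-- values in an extension -/
private theorem at_comap {F : Type} [Field F] [Algebra k F] (j : F →ₐ[k] Om k)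
    {V : Place k (Om k)} {v : Place k F} (hV : V.ring.comap (j : F →+* Om k) = v.ring) {f : F}
    {c : k} (h : v.At f c) : V.At (j f) c := by
  have hmem : ∀ f : F, j f ∈ V.ring ↔ f ∈ v.ring := by
    intro f
    rw [← hV, ValuationSubring.mem_comap]
    rfl
  unfold Place.At at h ⊢
  rw [Place.vanishes_iff_or, ← j.commutes c, ← map_sub, ← map_inv₀, hmem, map_eq_zero]
  exact (Place.vanishes_iff_or _ _).1 h

/-- **Every point of the variety is a value of the family.** -/
theorem exists_value (h : Fam X α B M) (p : GT.Pt X k) : ∃ (v : Place k (Om k)) (x y : Om k),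
    y ^ 2 = x ^ 3 - 3 * α * x + B ∧ M.co x y ≠ 0 ∧ IsValue X v (M.co x y) p := by
  -- the generic point
  let E : Type := AlgebraicClosure (RatFunc (Om k))
  let T : E := algebraMap (RatFunc (Om k)) E RatFunc.X
  have hT : Transcendental (Om k) T := by
    have h1 : Transcendental (Om k) (RatFunc.X : RatFunc (Om k)) := RatFunc.transcendental_X
    exact (transcendental_algebraMap_iff (algebraMap (RatFunc (Om k)) E).injective).2 h1
  obtain ⟨Y, hY⟩ := IsAlgClosed.exists_pow_nat_eq
    (T ^ 3 - 3 * algebraMap (Om k) E α * T + algebraMap (Om k) E B) (n := 2) two_pos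
  obtain ⟨j, hj⟩ : ∃ j, p.1.rep j ≠ 0 := by
    by_contra hcon
    push Not at hcon
    exact p.1.rep_nonzero (funext hcon)
  obtain ⟨hPj, hgen⟩ := h.generic_affine hT hY p hj
  set P : Fin (m + 1) → E := coE M (algebraMap (Om k) E) T Y with hP
  -- the place
  obtain ⟨V, hk, hV, hVe⟩ := CV.exists_val (E := E)
    (MvPolynomial.aeval fun i => P i / P j : MvPolynomial (Fin (m + 1)) k →ₐ[k] E)
    (MvPolynomial.aeval fun i => p.1.rep i / p.1.rep j) hgen
  obtain ⟨u, hu, hVu⟩ := exists_param V hV
  -- the functions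
  let S : Finset (Om k) := {u, α, B} ∪ (Finset.univ.biUnion fun i => (M.G i).coeffs) ∪
    (Finset.univ.biUnion fun i => (M.H i).coeffs)
  let U : Finset E := (S.image (algebraMap (Om k) E)) ∪ {T, Y} ∪ Finset.univ.image P ∪
    Finset.univ.image fun i => P i / P j
  obtain ⟨F, i1, i2, i3, ψ, v, hv⟩ := CV.exists_curve_of_val V hk hV U
  have hsub : ∀ e ∈ U, e ∈ Algebra.adjoin k (CV.withInv U) := fun e he =>
    Algebra.subset_adjoin (Or.inl he)
  have hinv : ∀ e ∈ U, e⁻¹ ∈ Algebra.adjoin k (CV.withInv U) := fun e he =>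
    Algebra.subset_adjoin (Or.inr ⟨e, he, rfl⟩)
  have hUS : ∀ s ∈ S, algebraMap (Om k) E s ∈ U := fun s hs => by
    simp only [U, Finset.mem_union]
    exact Or.inl (Or.inl (Or.inl (Finset.mem_image_of_mem _ hs)))
  have hUT : T ∈ U := by
    simp only [U, Finset.mem_union, Finset.mem_insert, Finset.mem_singleton]
    exact Or.inl (Or.inl (Or.inr (Or.inl trivial)))
  have hUY : Y ∈ U := by
    simp only [U, Finset.mem_union, Finset.mem_insert, Finset.mem_singleton]
    exact Or.inl (Or.inl (Or.inr (Or.inr trivial)))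
  have hUP : ∀ i, P i ∈ U := fun i => by
    simp only [U, Finset.mem_union]
    exact Or.inl (Or.inr (Finset.mem_image_of_mem _ (Finset.mem_univ i)))
  have hUQ : ∀ i, P i / P j ∈ U := fun i => by
    simp only [U, Finset.mem_union]
    exact Or.inr (Finset.mem_image_of_mem _ (Finset.mem_univ i))
  -- the constants
  let A : Subalgebra k (Om k) :=
    (Algebra.adjoin k (CV.withInv U)).comap (IsScalarTower.toAlgHom k (Om k) E)
  have hA : ∀ s ∈ S, s ∈ A := fun s hs => hsub _ (hUS s hs)
  let ι : A →ₐ[k] Algebra.adjoin k (CV.withInv U) :=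
    ((IsScalarTower.toAlgHom k (Om k) E).comp A.val).codRestrict _ fun a => a.2
  let uA : A := ⟨u, hA u (by simp [S])⟩
  have hσ : Transcendental k ((ψ.comp ι) uA) := by
    intro h0
    obtain ⟨c, hc⟩ : ∃ c, algebraMap k F c = (ψ.comp ι) uA :=
      minpoly.mem_range_of_degree_eq_one k _ (IsAlgClosed.degree_eq_one_of_irreducible k
        (minpoly.irreducible h0.isIntegral))
    have h1 : v.At (ψ (ι uA)) 0 := by
      refine hv (ι uA) 0 (Or.inl (hUS u (by simp [S]))) ?_
      rw [map_zero, sub_zero]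
      exact hVu
    have h2 : v.At (ψ (ι uA)) c := by
      have h3 : ψ (ι uA) = algebraMap k F c := hc.symm
      rw [h3]
      exact Place.at_const c
    have h3 : c = 0 := h2.unique h1
    have h4 : ψ (ι uA) = 0 := by
      have h5 : ψ (ι uA) = algebraMap k F c := hc.symm
      rw [h5, h3, map_zero]
    have hu0 : algebraMap (Om k) E u ≠ 0 := by
      intro h5
      apply hu
      have h6 : u = 0 := by simpa using h5
      rw [h6]
      exact isAlgebraic_zero
    have h5 : ι uA * ⟨(algebraMap (Om k) E u)⁻¹, hinv _ (hUS u (by simp [S]))⟩ = 1 :=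
      Subtype.ext (mul_inv_cancel₀ hu0)
    have h6 := congrArg ψ h5
    rw [map_mul, h4, zero_mul, map_one] at h6
    exact zero_ne_one h6
  obtain ⟨jj, hjj⟩ := exists_emb i3 (ψ.comp ι) hσ
  let θ : Algebra.adjoin k (CV.withInv U) →ₐ[k] Om k := jj.comp ψ
  have hθ : ∀ a : A, θ (ι a) = a := hjj
  let T' : Algebra.adjoin k (CV.withInv U) := ⟨T, hsub _ hUT⟩
  let Y' : Algebra.adjoin k (CV.withInv U) := ⟨Y, hsub _ hUY⟩
  let αA : A := ⟨α, hA α (by simp [S])⟩
  let BA : A := ⟨B, hA B (by simp [S])⟩
  have hxy : θ Y' ^ 2 = θ T' ^ 3 - 3 * α * θ T' + B := by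
    have h1 : Y' ^ 2 = T' ^ 3 - 3 * ι αA * T' + ι BA := Subtype.ext hY
    have h2 := congrArg θ h1
    simp only [map_add, map_sub, map_mul, map_pow, map_ofNat, hθ] at h2
    exact h2
  have hpoly : ∀ q : (Om k)[X], (∀ c ∈ q.coeffs, c ∈ A) →
      ∃ r : Algebra.adjoin k (CV.withInv U), (r : E) = (q.map (algebraMap (Om k) E)).eval T ∧
        θ r = q.eval (θ T') := by
    intro q hq
    have h1 : q ∈ Polynomial.lifts (A.val : A →+* Om k) := by
      rw [Polynomial.lifts_iff_coeff_lifts]
      intro n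
      by_cases hn : q.coeff n = 0
      · exact ⟨0, by rw [hn, map_zero]⟩
      · exact ⟨⟨q.coeff n, hq _ (Polynomial.coeff_mem_coeffs hn)⟩, rfl⟩
    obtain ⟨qA, rfl⟩ := (Polynomial.mem_lifts _).1 h1
    refine ⟨eval₂ (ι : A →+* Algebra.adjoin k (CV.withInv U)) T' qA, ?_, ?_⟩
    · rw [Polynomial.map_map, Polynomial.eval_map]
      exact Polynomial.hom_eval₂ qA (ι : A →+* Algebra.adjoin k (CV.withInv U))
        ((Algebra.adjoin k (CV.withInv U)).val : Algebra.adjoin k (CV.withInv U) →+* E) T'
    · rw [Polynomial.eval_map]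
      have h2 : (θ : Algebra.adjoin k (CV.withInv U) →+* Om k).comp
          (ι : A →+* Algebra.adjoin k (CV.withInv U)) = (A.val : A →+* Om k) := by
        ext a
        exact hθ a
      rw [← h2]
      exact Polynomial.hom_eval₂ qA (ι : A →+* Algebra.adjoin k (CV.withInv U))
        (θ : Algebra.adjoin k (CV.withInv U) →+* Om k) T'
  have hco : ∀ i, θ ⟨P i, hsub _ (hUP i)⟩ = M.co (θ T') (θ Y') i := by
    intro i
    obtain ⟨r, hr, hr'⟩ := hpoly (M.G i) fun c hc => hA c (by
      simp only [S, Finset.mem_union, Finset.mem_biUnion, Finset.mem_univ, true_and]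
      exact Or.inl (Or.inr ⟨i, hc⟩))
    obtain ⟨r', hr2, hr2'⟩ := hpoly (M.H i) fun c hc => hA c (by
      simp only [S, Finset.mem_union, Finset.mem_biUnion, Finset.mem_univ, true_and]
      exact Or.inr ⟨i, hc⟩)
    have h1 : (⟨P i, hsub _ (hUP i)⟩ : Algebra.adjoin k (CV.withInv U)) = r + r' * Y' := by
      apply Subtype.ext
      show P i = (r : E) + (r' : E) * Y
      rw [hr, hr2]
      rfl
    rw [h1, map_add, map_mul, hr', hr2']
    rfl
  have hcoj : M.co (θ T') (θ Y') j ≠ 0 := by
    rw [← hco j]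
    intro h0
    have h5 : (⟨P j, hsub _ (hUP j)⟩ : Algebra.adjoin k (CV.withInv U)) *
        ⟨(P j)⁻¹, hinv _ (hUP j)⟩ = 1 := Subtype.ext (mul_inv_cancel₀ hPj)
    have h6 := congrArg θ h5
    rw [map_mul, h0, zero_mul, map_one] at h6
    exact zero_ne_one h6
  obtain ⟨w, hw⟩ := TInc.exists_above i3 v jj
  refine ⟨w, θ T', θ Y', hxy, fun h0 => hcoj (by rw [h0]; rfl),
    algebraMap k (Om k) (p.1.rep j) * (M.co (θ T') (θ Y') j)⁻¹, fun i => ?_⟩
  have h1 : θ ⟨P i / P j, hsub _ (hUQ i)⟩ * M.co (θ T') (θ Y') j = M.co (θ T') (θ Y') i := by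
    rw [← hco i, ← hco j, ← map_mul]
    congr 1
    exact Subtype.ext (div_mul_cancel₀ _ hPj)
  have h2 : algebraMap k (Om k) (p.1.rep j) * (M.co (θ T') (θ Y') j)⁻¹ *
      M.co (θ T') (θ Y') i = algebraMap k (Om k) (p.1.rep j) *
        θ ⟨P i / P j, hsub _ (hUQ i)⟩ := by
    rw [← h1]
    field_simp
  have h3 : v.At (ψ ⟨P i / P j, hsub _ (hUQ i)⟩) (p.1.rep i / p.1.rep j) := by
    refine hv _ _ (Or.inl (hUQ i)) ?_
    have h4 := hVe (MvPolynomial.X i)
    rwa [MvPolynomial.aeval_X, MvPolynomial.aeval_X] at h4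
  have h4 := (Place.at_const (v := w) (p.1.rep j)).mul (at_comap jj hw h3)
  rw [mul_div_cancel₀ _ hj] at h4
  rw [h2]
  exact h4

end Pool.Agent.KAll
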