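import Pool.Agent.KAll.Value
import Pool.Agent.QRT.EllJ
import Pool.Agent.CUB.AltC

/-!
# The classes of the points of a covered variety

Every point is the value of a point of the elliptic curve (`exists_value`), so the alternating sums
of sufficiently many points are rationally equivalent to zero.
-/

set_option autoImplicit false

noncomputable section

namespace Pool.Agent.KAll

open Pool.Agent.ZCyc Pool.Agent.Dess Pool.Agent.GT Pool.Agent.CUB
open Pool.Agent.VFP (Om tt)
open scoped Classical LinearAlgebra.Projectivization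

variable {k : Type} [Field k] {m : ℕ} {X : Set (MvPolynomial (Fin (m + 1)) k)}

theorem equivalent_iff {p q : GT.Pt X k} :
    Equivalent X p q ↔ cl1 X (Finsupp.single p 1) = cl1 X (Finsupp.single q 1) := by
  have h : ∀ p : GT.Pt X k, cl1 X (Finsupp.single p 1) =
      Submodule.Quotient.mk (Finsupp.single (fun _ : Unit => p) (1 : ℚ)) := by
    intro p
    change Submodule.Quotient.mk (Finsupp.mapDomain _ _) = _
    rw [Finsupp.mapDomain_single]
  rw [h, h, Submodule.Quotient.eq]
  rfl

/-- a point is nonsingular and has a value -/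
theorem isValue_ne {K : Type} [Field K] [Algebra k K] {v : Place k K} {a : Fin (m + 1) → K}
    {p : GT.Pt X k} (h : IsValue X v a p) : a ≠ 0 := by
  obtain ⟨l, h⟩ := h
  intro h0
  apply p.1.rep_nonzero
  funext i
  have h1 := h i
  rw [h0, Pi.zero_apply, mul_zero] at h1
  have h2 := Place.at_const (v := v) (0 : k)
  rw [map_zero] at h2
  exact Place.At.unique h1 h2

variable [IsAlgClosed k] {α B : Om k} {M : GT.Mp (Om k) m}

/-- the limit of the image of a point is the class of the value -/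
theorem lmp_value [CharZero k] (hX : Hom X) (hM : M.Ok α B X) {v : Place k (Om k)} {x y : Om k}
    (hxy : (Ec α B).Nonsingular x y) {Y : GT.Pt X k} (h : IsValue X v (M.co x y) Y) :
    M.Ns (.some x y hxy : (Ec α B).Point) ∧
      lmp hX hM v (.some x y hxy) = cl1 X (Finsupp.single Y 1) := by
  have hne : M.co x y ≠ 0 := isValue_ne h
  have hN : M.Ns (.some x y hxy : (Ec α B).Point) := hne
  refine ⟨hN, ?_⟩
  have h5 : pv hX v (phi hX hM (.some x y hxy) hN) = Y :=
    pv_eq ((isVal_iff hne Y.1.rep_nonzero rfl (Projectivization.mk_rep Y.1).symm).2 h)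
  have h6 : cyc hX hM (.some x y hxy) =
      Finsupp.single (phi hX hM (.some x y hxy) hN) 1 := dif_pos hN
  change lim1 hX v _ = cl1 X _
  rw [h6]
  change Submodule.Quotient.mk (Finsupp.mapDomain _ (Finsupp.mapDomain _ _)) =
    Submodule.Quotient.mk (Finsupp.mapDomain _ _)
  rw [Finsupp.mapDomain_single, Finsupp.mapDomain_single, Finsupp.mapDomain_single]
  change Submodule.Quotient.mk (Finsupp.single
    (fun _ : Unit => pv hX v (phi hX hM (.some x y hxy) hN)) 1) = _
  rw [h5]

/-- every point of the elliptic curve where the map is defined has a value at every place -/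
theorem value_of_pt [CharZero k] (hX : Hom X) (hM : M.Ok α B X) (v : Place k (Om k)) {x y : Om k}
    (hxy : y ^ 2 = x ^ 3 - 3 * α * x + B) (hne : M.co x y ≠ 0) :
    ∃ p : GT.Pt X k, IsValue X v (M.co x y) p := by
  let P : GT.Pt X (Om k) := mkPt hX (M.co x y) hne fun f hf => hM.onX f hf x y hxy
  refine ⟨pv hX v P, ?_⟩
  exact (isVal_iff hne (pv hX v P).1.rep_nonzero rfl (Projectivization.mk_rep _).symm).1
    (pv_spec hX v P)

/-- The limit homomorphism is zero at the place of a member which consists of rationally equivalent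
points. -/
theorem hV_member [CharZero k] (hX : Hom X) (hM : M.Ok α B X) {v₀ : Place k (Om k)}
    (h₀ : ∀ (x y x' y' : Om k) (p p' : GT.Pt X k),
      y ^ 2 = x ^ 3 - 3 * α * x + B → y' ^ 2 = x' ^ 3 - 3 * α * x' + B →
      IsValue X v₀ (M.co x y) p → IsValue X v₀ (M.co x' y') p' → Equivalent X p p')
    (P : (Ec α B).Point) : hV hX hM v₀ P = 0 := by
  have := infinite_points hM.disc
  have h0 : {Q : (Ec α B).Point | ¬ M.Ns Q}.Finite := finite_bad hM.ne
  have h1 := h0.union (h0.preimage (f := fun Q => P + Q) (add_right_injective P).injOn)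
  obtain ⟨Q, hQ⟩ := h1.exists_notMem
  have hQ1 : M.Ns Q := by
    by_contra hc
    exact hQ (Or.inl hc)
  have hQ2 : M.Ns (P + Q) := by
    by_contra hc
    exact hQ (Or.inr hc)
  have key : ∀ R : (Ec α B).Point, M.Ns R → ∃ (x y : Om k) (p : GT.Pt X k),
      y ^ 2 = x ^ 3 - 3 * α * x + B ∧ IsValue X v₀ (M.co x y) p ∧
      lmp hX hM v₀ R = cl1 X (Finsupp.single p 1) := by
    intro R hR
    rcases R with _ | ⟨x, y, hxy⟩
    · exact hR.elim
    · have hne : M.co x y ≠ 0 := hR
      obtain ⟨p, hp⟩ := value_of_pt hX hM v₀ (eqn_iff.1 hxy.1) hne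
      exact ⟨x, y, p, eqn_iff.1 hxy.1, hp, (lmp_value hX hM hxy hp).2⟩
  obtain ⟨x, y, p, hxy, hp, h2⟩ := key Q hQ1
  obtain ⟨x', y', p', hxy', hp', h3⟩ := key (P + Q) hQ2
  rw [← hV_spec hX hM v₀ hQ1 hQ2, h2, h3, sub_eq_zero]
  exact equivalent_iff.1 (h₀ x' y' x y p' p hxy' hxy hp' hp)

/-- The class of a point is the sum of the class of a value of the multisection and of a value of
the limit homomorphism. -/
theorem cls_point [CharZero k] (hX : Hom X) (hM : M.Ok α B X) {x₀ y₀ : Om k}
    (h₀ : y₀ ^ 2 = x₀ ^ 3 - 3 * α * x₀ + B) (hne : M.co x₀ y₀ ≠ 0)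
    {v : Place k (Om k)} {x y : Om k} (hxy : y ^ 2 = x ^ 3 - 3 * α * x + B) {p : GT.Pt X k}
    (hp : IsValue X v (M.co x y) p) :
    ∃ p₀ : GT.Pt X k, IsValue X v (M.co x₀ y₀) p₀ ∧ ∃ P : (Ec α B).Point,
      cl1 X (Finsupp.single p 1) = cl1 X (Finsupp.single p₀ 1) + hV hX hM v P := by
  obtain ⟨p₀, hp₀⟩ := value_of_pt hX hM v h₀ hne
  obtain ⟨h1, h2⟩ := lmp_value hX hM (nonsing hM.disc hxy) hp
  obtain ⟨h3, h4⟩ := lmp_value hX hM (nonsing hM.disc h₀) hp₀
  refine ⟨p₀, hp₀, .some x y (nonsing hM.disc hxy) - .some x₀ y₀ (nonsing hM.disc h₀), ?_⟩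
  have key := hV_spec hX hM v
    (P := (.some x y (nonsing hM.disc hxy) - .some x₀ y₀ (nonsing hM.disc h₀) : (Ec α B).Point))
    (Q := .some x₀ y₀ (nonsing hM.disc h₀)) h3 (by
      rw [sub_add_cancel]
      exact h1)
  rw [sub_add_cancel, h2, h4] at key
  rw [← key]
  abel

/-- The classes of the cycles of degree zero are combinations of values of the limit homomorphisms. -/
theorem cls_deg [CharZero k] (hc : IsCover X α B M) {z : GT.Pt X k →₀ ℚ} (hz : (z.sum fun _ a => a) = 0) :
    cl1 X z ∈ Submodule.span ℚ (QRT.HVs hc.hom hc.ok) := by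
  obtain ⟨v₀, -⟩ := hc.member
  obtain ⟨x₀, y₀, h₀, hne, hsec⟩ := hc.section_
  obtain ⟨q, hq⟩ := value_of_pt hc.hom hc.ok v₀ h₀ hne
  have hpt : ∀ p : GT.Pt X k, cl1 X (Finsupp.single p 1) - cl1 X (Finsupp.single q 1) ∈
      Submodule.span ℚ (QRT.HVs hc.hom hc.ok) := by
    intro p
    obtain ⟨v, x, y, hxy, -, hp⟩ := exists_value hc.toFam p
    obtain ⟨p₀, hp₀, P, h1⟩ := cls_point hc.hom hc.ok h₀ hne hxy hp
    rw [h1, equivalent_iff.1 (hsec v v₀ p₀ q hp₀ hq), add_sub_cancel_left]
    exact Submodule.subset_span ⟨v, P, rfl⟩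
  have h2 : cl1 X z = z.sum fun p a => a • (cl1 X (Finsupp.single p 1) -
      cl1 X (Finsupp.single q 1)) := by
    have h3 : cl1 X z = z.sum fun p a => a • cl1 X (Finsupp.single p 1) := by
      conv_lhs => rw [← Finsupp.sum_single z]
      rw [map_finsuppSum]
      refine Finsupp.sum_congr fun p _ => ?_
      rw [← map_smul, Finsupp.smul_single, smul_eq_mul, mul_one]
    simp only [smul_sub]
    rw [Finsupp.sum_sub, ← h3]
    have h4 : (z.sum fun _ a => a • cl1 X (Finsupp.single q (1 : ℚ))) =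
        (z.sum fun _ a => a) • cl1 X (Finsupp.single q 1) := by
      rw [Finsupp.sum, Finsupp.sum, Finset.sum_smul]
    rw [h4, hz, zero_smul, sub_zero]
  rw [h2]
  exact Submodule.sum_mem _ fun p _ => Submodule.smul_mem _ _ (hpt p)

/-- Cycles of degree zero. -/
theorem covered_deg [CharZero k] (hc : IsCover X α B M) :
    ∃ N : ℕ, ∀ n, N ≤ n → ∀ z : Fin n → (GT.Pt X k →₀ ℚ), (∀ j, ((z j).sum fun _ a => a) = 0) →
      alt z ∈ GT.Rat X (Fin n) := by
  obtain ⟨v₀, h₀⟩ := hc.member
  obtain ⟨N, hN⟩ := QRT.ell_alt hc.hom hc.ok (v₀ := v₀) (hV_member hc.hom hc.ok h₀)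
  refine ⟨N, fun n hn z hz => ?_⟩
  change ∑ τ : Equiv.Perm (Fin n), ((Equiv.Perm.sign τ : ℤˣ) : ℤ) •
    GT.ext (fun j => z (τ j)) ∈ GT.Rat X (Fin n)
  rw [← Submodule.Quotient.mk_eq_zero, cl_alt hc.hom]
  exact hN n hn _ fun j => cls_deg hc (hz j)

omit [IsAlgClosed k] in
/-- the zero-cycles which are rationally equivalent to zero on the powers of a variety -/
theorem rsysX (hX : Hom X) : RSys (fun N => GT.Rat X (Fin N)) (⊥ : Submodule ℚ (GT.Pt X k →₀ ℚ)) where
  update := by
    intro w hw N j c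
    rw [Submodule.mem_bot] at hw
    rw [hw, Finsupp.mapDomain_zero]
    exact Submodule.zero_mem _
  perm := by
    intro N z hz σ
    have h1 : GT.Rat X (Fin N) ≤ (GT.Rat X (Fin N)).comap (Finsupp.lmapDomain ℚ ℚ
        fun (x : Fin N → GT.Pt X k) j => x (σ j)) := by
      refine Submodule.span_le.2 ?_
      rintro _ ⟨K, i1, i2, i3, x, y, f, D, hf, hD, hval, rfl⟩
      change Finsupp.lmapDomain ℚ ℚ _ _ ∈ GT.Rat X (Fin N)
      rw [map_finsuppSum]
      refine Submodule.subset_span ⟨K, i1, i2, i3, fun j => x (σ j), fun v j => y v (σ j), f, D,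
        hf, hD, fun v i => hval v (σ i), ?_⟩
      exact Finsupp.sum_congr fun v _ => by
        rw [Finsupp.lmapDomain_apply, Finsupp.mapDomain_single]
    exact h1 hz
  append := by
    intro N z hz M c
    have h1 : GT.Rat X (Fin N) ≤ (GT.Rat X (Fin (N + M))).comap (Finsupp.lmapDomain ℚ ℚ
        fun (x : Fin N → GT.Pt X k) => Fin.append x c) := by
      refine Submodule.span_le.2 ?_
      rintro _ ⟨K, i1, i2, i3, x, y, f, D, hf, hD, hval, rfl⟩
      change Finsupp.lmapDomain ℚ ℚ _ _ ∈ GT.Rat X (Fin (N + M))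
      rw [map_finsuppSum]
      refine Submodule.subset_span ⟨K, i1, i2, i3,
        Fin.append x fun i => Pt.map (Algebra.ofId k K) hX (c i), fun v => Fin.append (y v) c,
        f, D, hf, hD, fun v i => ?_, ?_⟩
      · change GT.IsVal v _ (Fin.append (y v) c i)
        induction i using Fin.addCases with
        | left i =>
          rw [Fin.append_left, Fin.append_left]
          exact hval v i
        | right i =>
          rw [Fin.append_right, Fin.append_right]
          exact isVal_const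
      · exact Finsupp.sum_congr fun v _ => by
          rw [Finsupp.lmapDomain_apply, Finsupp.mapDomain_single]
    exact h1 hz

omit [IsAlgClosed k] in
/-- from cycles of degree zero to all points -/
theorem points_of_deg (hX : Hom X) {n : ℕ}
    (h : ∀ z : Fin n → (GT.Pt X k →₀ ℚ), (∀ j, ((z j).sum fun _ a => a) = 0) →
      alt z ∈ GT.Rat X (Fin n)) :
    ∃ n : ℕ, 0 < n ∧ ∀ x : Fin n → GT.Pt X k,
      alt (fun j => Finsupp.single (x j) (1 : ℚ)) ∈ GT.Rat X (Fin n) := by
  rcases isEmpty_or_nonempty (GT.Pt X k) with he | ⟨⟨l₀⟩⟩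
  · refine ⟨1, one_pos, fun x => ?_⟩
    exact he.elim (x 0)
  let A : Submodule ℚ (GT.Pt X k →₀ ℚ) :=
    LinearMap.ker (Finsupp.linearCombination ℚ fun _ : GT.Pt X k => (1 : ℚ))
  let B : Submodule ℚ (GT.Pt X k →₀ ℚ) := Submodule.span ℚ {Finsupp.single l₀ (1 : ℚ)}
  have hA : ∀ z : Fin n → (GT.Pt X k →₀ ℚ), (∀ j, z j ∈ A) → alt z ∈ GT.Rat X (Fin n) := by
    intro z hz
    refine h z fun j => ?_
    have h := LinearMap.mem_ker.1 (hz j)
    rw [Finsupp.linearCombination_apply] at h
    simpa using h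
  have hB' : ∀ z : Fin 2 → (GT.Pt X k →₀ ℚ), (∀ j, z j ∈ B) → alt z ∈ GT.Rat X (Fin 2) := by
    intro z hz
    refine alt_span (G := {Finsupp.single l₀ (1 : ℚ)}) ?_ z hz
    intro w hw
    have hw' : w = fun _ => Finsupp.single l₀ (1 : ℚ) := funext fun j => hw j
    have h0 : alt w = 0 := by
      rw [hw']
      unfold alt
      rw [← Finset.sum_smul]
      have : ∑ τ : Equiv.Perm (Fin 2), ((Equiv.Perm.sign τ : ℤˣ) : ℤ) = 0 := by decide
      rw [this, zero_smul]
    rw [h0]
    exact Submodule.zero_mem _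
  refine ⟨n + 2, by omega, fun x => alt_sup (rsysX hX) hA hB' le_rfl _ fun j => ?_⟩
  have h1 : Finsupp.single (x j) (1 : ℚ) = (Finsupp.single (x j) (1 : ℚ) -
      Finsupp.single l₀ (1 : ℚ)) + Finsupp.single l₀ (1 : ℚ) := by
    rw [sub_add_cancel]
  rw [h1]
  refine Submodule.add_mem _ ?_ ?_
  · refine Submodule.mem_sup_left (Submodule.mem_sup_right ?_)
    change _ ∈ LinearMap.ker _
    rw [LinearMap.mem_ker, map_sub, Finsupp.linearCombination_single,
      Finsupp.linearCombination_single]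
    simp
  · exact Submodule.mem_sup_right (Submodule.mem_span_singleton_self _)

/-- **Covered varieties**: the alternating sums of sufficiently many points are rationally equivalent
to zero. -/
theorem covered_points [CharZero k] (hX : Covered X) :
    ∃ n : ℕ, 0 < n ∧ ∀ x : Fin n → GT.Pt X k,
      alt (fun j => Finsupp.single (x j) (1 : ℚ)) ∈ GT.Rat X (Fin n) := by
  obtain ⟨α, B, M, hc⟩ := hX
  obtain ⟨N, hN⟩ := covered_deg hc
  exact points_of_deg hc.hom (n := N) fun z hz => hN N le_rfl z hz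

end Pool.Agent.KAll
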