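import Pool.Agent.KMix.Defs
import Pool.Agent.GT.Curve

/-!
# Surfaces which are covered by curves of genus one, and products

`Om k` is the algebraic closure of `k(t)`. An elliptic curve `E` over `Om k` with a map to a
projective variety `S` over `k` is (the general member of) a family of curves of genus one over a
curve with a map to `S`. `Var k` are the varieties over the field `k` which occur as factors,
`X.Pts K` are the points of the variety `X` with coordinates in the field `K`. A curve is given by
its function field `K`, a rational map from this curve to a variety `X` is a point of `X` with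
coordinates in `K`.
-/

set_option autoImplicit false

noncomputable section

namespace Pool.Agent.KAll

open Pool.Agent.ZCyc Pool.Agent.Dess
open Pool.Agent.VFP (Om tt)
open scoped Classical LinearAlgebra.Projectivization

variable {k : Type} [Field k]

section Covered

variable {m : ℕ} (X : Set (MvPolynomial (Fin (m + 1)) k))

/-- The point `p` of the variety with the equations `X` is the value at the place `v` of the point
with the homogeneous coordinates `a`. -/
def IsValue {K : Type} [Field K] [Algebra k K] (v : Place k K) (a : Fin (m + 1) → K)
    (p : GT.Pt X k) : Prop :=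
  ∃ l : K, ∀ i, v.At (l * a i) (p.1.rep i)

/-- The points `p` and `q` are rationally equivalent (with rational coefficients). -/
def Equivalent (p q : GT.Pt X k) : Prop :=
  Finsupp.single (fun _ : Unit => p) (1 : ℚ) - Finsupp.single (fun _ : Unit => q) 1 ∈
    GT.Rat X Unit

/-- The variety with the equations `X` is covered by the family of elliptic curves
`y ^ 2 = x ^ 3 - 3 * α * x + B` over `Om k` with the map `φ(x, y) = G_i(x) + H_i(x) y`: all points
`φ(x, y)` satisfy the equations `X`, and a form with coefficients in `k` which is zero at all these
points is zero at all points of the variety (`φ` is dominant). -/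
structure Fam (α B : Om k) (M : GT.Mp (Om k) m) : Prop where
  hom : GT.Hom X
  ok : M.Ok α B X
  dom : ∀ (f : MvPolynomial (Fin (m + 1)) k) (d : ℕ), f.IsHomogeneous d →
    (∀ x y : Om k, y ^ 2 = x ^ 3 - 3 * α * x + B → MvPolynomial.aeval (M.co x y) f = 0) →
    ∀ p : GT.Pt X k, MvPolynomial.aeval p.1.rep f = 0

/-- The variety with the equations `X` is covered by the family of elliptic curves, and

* some member of the family consists of rationally equivalent points: all values of the points
  `φ(x, y)` at a place `v₀` of `Om k` are rationally equivalent;
* some multisection consists of rationally equivalent points: all values (at all places) of the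
  point `φ(x₀, y₀)`, for some point `(x₀, y₀)` of the elliptic curve, are rationally equivalent. -/
structure IsCover (α B : Om k) (M : GT.Mp (Om k) m) : Prop extends Fam X α B M where
  member : ∃ v₀ : Place k (Om k), ∀ (x y x' y' : Om k) (p p' : GT.Pt X k),
    y ^ 2 = x ^ 3 - 3 * α * x + B → y' ^ 2 = x' ^ 3 - 3 * α * x' + B →
    IsValue X v₀ (M.co x y) p → IsValue X v₀ (M.co x' y') p' → Equivalent X p p'
  section_ : ∃ x₀ y₀ : Om k, y₀ ^ 2 = x₀ ^ 3 - 3 * α * x₀ + B ∧ M.co x₀ y₀ ≠ 0 ∧
    ∀ (v v' : Place k (Om k)) (p p' : GT.Pt X k),
      IsValue X v (M.co x₀ y₀) p → IsValue X v' (M.co x₀ y₀) p' → Equivalent X p p'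

/-- The variety with the equations `X` is covered by a family of curves of genus one with one member
and one multisection which consist of rationally equivalent points. -/
def Covered : Prop := ∃ (α B : Om k) (M : GT.Mp (Om k) m), IsCover X α B M

end Covered

/-- The varieties which occur as factors. -/
inductive Var (k : Type) [Field k] : Type
  /-- the variety with the equations `X` in the projective space of dimension `m` -/
  | covered {m : ℕ} (X : Set (MvPolynomial (Fin (m + 1)) k)) : Var k
  /-- the quartic surface with the equation `F` in the projective space of dimension three -/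
  | quartic (F : MvPolynomial (Fin 4) k) : Var k
  /-- the double plane `y ^ 2 = F(x₀, x₁, x₂)` -/
  | plane (F : MvPolynomial (Fin 3) k) : Var k
  /-- the variety of the lines on the cubic fourfold with the equation `F` -/
  | lines (F : MvPolynomial (Fin 6) k) : Var k

/-- The variety with the equations `X` is covered by a family of curves of genus one, or the form
`F` has the degree `4` (quartic surface), `6` (double plane) or `3` (lines on a cubic fourfold), and
is nonsingular. -/
def Var.Ok : Var k → Prop
  | .covered X => Covered X
  | .quartic F => F.IsHomogeneous 4 ∧ KMix.NonSing F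
  | .plane F => F.IsHomogeneous 6 ∧ KMix.NonSing F
  | .lines F => F.IsHomogeneous 3 ∧ KMix.NonSing F

/-- the points of `X` with coordinates in `K` -/
def Var.Pts (X : Var k) (K : Type) [Field K] [Algebra k K] : Type :=
  match X with
  | .covered X => GT.Pt X K
  | .quartic F => GT.Pt (m := 3) {F} K
  | .plane F => KMix.Dp F K
  | .lines F => CUB.Ln F K

/-- the point `y` of `X` is the value of the point `x` at the place `v` -/
def Var.IsVal (X : Var k) {K : Type} [Field K] [Algebra k K] (v : Place k K) (x : X.Pts K)
    (y : X.Pts k) : Prop :=
  match X, x, y with
  | .covered _, x, y => GT.IsVal v x y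
  | .quartic _, x, y => GT.IsVal v x y
  | .plane _, x, y => KMix.Dp.IsVal v x y
  | .lines _, x, y => CUB.IsVal v x y

/-- The zero-cycles on the `N`-th power of the product of the varieties `X 0`, ..., `X (m - 1)`
which are rationally equivalent to zero: the span of the push-forwards of the divisors `D` of all
rational functions `f` on all smooth projective curves (with the function field `K`) by all maps
`x`. -/
def Rat {m : ℕ} (X : Fin m → Var k) (N : ℕ) :
    Submodule ℚ ((Fin N → ∀ a, (X a).Pts k) →₀ ℚ) :=
  Submodule.span ℚ {z | ∃ (K : Type) (_ : Field K) (_ : Algebra k K) (_ : IsCurve k K)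
    (x : Fin N → ∀ a, (X a).Pts K) (y : Place k K → Fin N → ∀ a, (X a).Pts k) (f : K)
    (D : Place k K →₀ ℤ), f ≠ 0 ∧ (∀ v, HasOrd v f (D v)) ∧
    (∀ v i a, (X a).IsVal v (x i a) (y v i a)) ∧
    z = D.sum fun v c => Finsupp.single (y v) (c : ℚ)}

end Pool.Agent.KAll
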