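import Pool.Agent.KAll.Defs
import Pool.Agent.GT.Val
import Pool.Agent.VFP.Util

/-!
# The generic point of a family of elliptic curves

`E` is a field over `Om k`, `T` an element which is transcendental over `Om k`, and
`Y ^ 2 = T ^ 3 - 3 α T + B`. A form which is zero at `φ(T, Y)` is zero at all points `φ(x, y)`.
-/

set_option autoImplicit false

noncomputable section

namespace Pool.Agent.KAll

open Pool.Agent.ZCyc Pool.Agent.Dess Polynomial
open Pool.Agent.VFP (Om tt)
open scoped Classical LinearAlgebra.Projectivization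

variable {k : Type} [Field k] {m : ℕ}

/-- the coordinates of the image of a point with coordinates in an extension of `Om k` -/
def coE {W K : Type} [Field W] [Field K] (M : GT.Mp W m) (S : W →+* K) (x y : K)
    (i : Fin (m + 1)) : K :=
  ((M.G i).map S).eval x + ((M.H i).map S).eval x * y

theorem coE_id {W : Type} [Field W] (M : GT.Mp W m) (x y : W) :
    coE M (RingHom.id W) x y = M.co x y := by
  funext i
  unfold coE GT.Mp.co
  rw [Polynomial.map_id, Polynomial.map_id]

/-- a form at the image of a point is `a(x) + b(x) y` -/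
theorem exists_ab {W : Type} [Field W] [Algebra k W] (α B : W) (M : GT.Mp W m)
    (f : MvPolynomial (Fin (m + 1)) k) : ∃ a b : W[X], ∀ (K : Type) [Field K] [Algebra k K]
      (S : W →ₐ[k] K) (x y : K), y ^ 2 = x ^ 3 - 3 * S α * x + S B →
        MvPolynomial.aeval (coE M (S : W →+* K) x y) f =
          (a.map (S : W →+* K)).eval x + (b.map (S : W →+* K)).eval x * y := by
  induction f using MvPolynomial.induction_on with
  | C c =>
    refine ⟨C (algebraMap k W c), 0, fun K _ _ S x y _ => ?_⟩
    rw [MvPolynomial.aeval_C, Polynomial.map_C, eval_C, Polynomial.map_zero, eval_zero, zero_mul,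
      add_zero]
    exact (S.commutes c).symm
  | add f g hf hg =>
    obtain ⟨a, b, h⟩ := hf
    obtain ⟨a', b', h'⟩ := hg
    refine ⟨a + a', b + b', fun K _ _ S x y hy => ?_⟩
    rw [map_add, h K S x y hy, h' K S x y hy, Polynomial.map_add, Polynomial.map_add, eval_add,
      eval_add]
    ring
  | mul_X f i hf =>
    obtain ⟨a, b, h⟩ := hf
    refine ⟨a * M.G i + b * M.H i * (X ^ 3 - C (3 * α) * X + C B), a * M.H i + b * M.G i,
      fun K _ _ S x y hy => ?_⟩
    rw [map_mul, h K S x y hy, MvPolynomial.aeval_X]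
    have h3 : (S : W →+* K) (3 * α) = 3 * S α := by
      rw [map_mul, map_ofNat]
      rfl
    simp only [coE, Polynomial.map_add, Polynomial.map_sub, Polynomial.map_mul, Polynomial.map_pow,
      Polynomial.map_X, Polynomial.map_C, eval_add, eval_sub, eval_mul, eval_pow, eval_X, eval_C,
      h3]
    have h4 : (S : W →+* K) B = S B := rfl
    rw [h4]
    linear_combination ((b.map (S : W →+* K)).eval x *
      ((M.H i).map (S : W →+* K)).eval x) * hy

/-- `1` and `Y` are linearly independent over the functions of `T` -/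
theorem ab_zero {W E : Type} [Field W] [Field E] [Algebra W E] {α B : W} {T Y : E}
    (hT : Transcendental W T)
    (hY : Y ^ 2 = T ^ 3 - 3 * algebraMap W E α * T + algebraMap W E B) {a b : W[X]}
    (h : (a.map (algebraMap W E)).eval T + (b.map (algebraMap W E)).eval T * Y = 0) :
    a = 0 ∧ b = 0 := by
  have hinj : ∀ p : W[X], (p.map (algebraMap W E)).eval T = 0 → p = 0 := by
    intro p hp
    by_contra h0
    apply hT
    refine ⟨p, h0, ?_⟩
    rw [← hp, Polynomial.aeval_def, Polynomial.eval_map]
  have h1 : a ^ 2 - b ^ 2 * (X ^ 3 - C (3 * α) * X + C B) = 0 := by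
    apply hinj
    have h3 : algebraMap W E (3 * α) = 3 * algebraMap W E α := by
      rw [map_mul, map_ofNat]
    simp only [Polynomial.map_add, Polynomial.map_sub, Polynomial.map_mul, Polynomial.map_pow,
      Polynomial.map_X, Polynomial.map_C, eval_add, eval_sub, eval_mul, eval_pow, eval_X, eval_C,
      h3]
    rw [← hY]
    linear_combination ((a.map (algebraMap W E)).eval T -
      (b.map (algebraMap W E)).eval T * Y) * h
  have hb : b = 0 := by
    by_contra hb
    have hc : (X ^ 3 - C (3 * α) * X + C B : W[X]).natDegree = 3 := by compute_degree!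
    have hc0 : (X ^ 3 - C (3 * α) * X + C B : W[X]) ≠ 0 := by
      intro h0
      rw [h0] at hc
      simp at hc
    have h2 := congrArg natDegree (sub_eq_zero.1 h1)
    rw [natDegree_pow, natDegree_mul (pow_ne_zero 2 hb) hc0, natDegree_pow, hc] at h2
    omega
  refine ⟨?_, hb⟩
  rw [hb] at h1
  have h2 : a ^ 2 = 0 := by
    rw [← h1]
    ring
  exact pow_eq_zero_iff two_ne_zero |>.1 h2

variable {X : Set (MvPolynomial (Fin (m + 1)) k)} {α B : Om k} {M : GT.Mp (Om k) m}

/-- **The generic point.** -/
theorem Fam.generic (h : Fam X α B M) {E : Type} [Field E] [Algebra (Om k) E] [Algebra k E]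
    [IsScalarTower k (Om k) E] {T Y : E} (hT : Transcendental (Om k) T)
    (hY : Y ^ 2 = T ^ 3 - 3 * algebraMap (Om k) E α * T + algebraMap (Om k) E B)
    (f : MvPolynomial (Fin (m + 1)) k) {d : ℕ} (hf : f.IsHomogeneous d)
    (h0 : MvPolynomial.aeval (coE M (algebraMap (Om k) E) T Y) f = 0) (p : GT.Pt X k) :
    MvPolynomial.aeval p.1.rep f = 0 := by
  refine h.dom f d hf (fun x y hxy => ?_) p
  obtain ⟨a, b, hab⟩ := exists_ab α B M f
  have h1 := hab E (IsScalarTower.toAlgHom k (Om k) E) T Y hY
  have h2 : ((IsScalarTower.toAlgHom k (Om k) E : Om k →ₐ[k] E) : Om k →+* E) =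
      algebraMap (Om k) E := rfl
  rw [h2, h0] at h1
  obtain ⟨ha, hb⟩ := ab_zero hT hY h1.symm
  have h3 := hab (Om k) (AlgHom.id k (Om k)) x y hxy
  have h4 : ((AlgHom.id k (Om k) : Om k →ₐ[k] Om k) : Om k →+* Om k) = RingHom.id (Om k) := rfl
  rw [h4, coE_id, ha, hb] at h3
  rw [h3]
  simp

/-- The same for polynomials which are not homogeneous, in affine coordinates. -/
theorem Fam.generic_affine (h : Fam X α B M) {E : Type} [Field E] [Algebra (Om k) E] [Algebra k E]
    [IsScalarTower k (Om k) E] {T Y : E} (hT : Transcendental (Om k) T)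
    (hY : Y ^ 2 = T ^ 3 - 3 * algebraMap (Om k) E α * T + algebraMap (Om k) E B)
    (p : GT.Pt X k) {j : Fin (m + 1)} (hj : p.1.rep j ≠ 0) :
    coE M (algebraMap (Om k) E) T Y j ≠ 0 ∧ ∀ f : MvPolynomial (Fin (m + 1)) k,
      MvPolynomial.aeval (fun i => coE M (algebraMap (Om k) E) T Y i /
        coE M (algebraMap (Om k) E) T Y j) f = 0 →
      MvPolynomial.aeval (fun i => p.1.rep i / p.1.rep j) f = 0 := by
  set P : Fin (m + 1) → E := coE M (algebraMap (Om k) E) T Y with hP
  have hPj : P j ≠ 0 := by
    intro h0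
    apply hj
    have h1 := h.generic hT hY (MvPolynomial.X j) (MvPolynomial.isHomogeneous_X k j)
      (by rw [MvPolynomial.aeval_X]; exact h0) p
    rwa [MvPolynomial.aeval_X] at h1
  refine ⟨hPj, fun f hf => ?_⟩
  let D := f.totalDegree
  let F : MvPolynomial (Fin (m + 1)) k := ∑ d ∈ Finset.range (D + 1),
    MvPolynomial.homogeneousComponent d f * MvPolynomial.X j ^ (D - d)
  have hF : F.IsHomogeneous D := by
    refine MvPolynomial.IsHomogeneous.sum _ _ _ fun d hd => ?_
    have h1 := (MvPolynomial.homogeneousComponent_isHomogeneous d f).mul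
      (MvPolynomial.isHomogeneous_X_pow j (D - d))
    rwa [Nat.add_sub_cancel' (Nat.lt_succ_iff.1 (Finset.mem_range.1 hd))] at h1
  have key : ∀ (K : Type) [Field K] [Algebra k K] (a : Fin (m + 1) → K), a j ≠ 0 →
      MvPolynomial.aeval a F = a j ^ D * MvPolynomial.aeval (fun i => a i / a j) f := by
    intro K _ _ a ha
    have h1 : f = ∑ d ∈ Finset.range (D + 1), MvPolynomial.homogeneousComponent d f :=
      (MvPolynomial.sum_homogeneousComponent f).symm
    conv_rhs => rw [h1]
    simp only [F]
    rw [map_sum, map_sum, Finset.mul_sum]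
    refine Finset.sum_congr rfl fun d hd => ?_
    have h2 := GT.aeval_smul_homog (MvPolynomial.homogeneousComponent_isHomogeneous d f) (a j)
      fun i => a i / a j
    have h3 : (fun i => a j * (a i / a j)) = a := by
      funext i
      rw [mul_div_cancel₀ _ ha]
    rw [h3] at h2
    rw [map_mul, map_pow, MvPolynomial.aeval_X, h2]
    have h4 : a j ^ D = a j ^ d * a j ^ (D - d) := by
      rw [← pow_add, Nat.add_sub_cancel' (Nat.lt_succ_iff.1 (Finset.mem_range.1 hd))]
    rw [h4]
    ring
  have h1 := h.generic hT hY F hF (by rw [key E P hPj, hf, mul_zero]) p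
  rw [key k _ hj] at h1
  exact (mul_eq_zero.1 h1).resolve_left (pow_ne_zero _ hj)

end Pool.Agent.KAll
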