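import Pool.Agent.KAll.Defs
import Pool.Agent.GT.ExtA

/-!
# Images of products

A morphism `F` from a product of varieties to a variety `Y` maps the zero-cycles which are rationally
equivalent to zero to such cycles. So if all cycles on the product are sums of cycles in `A` and `B`,
where the alternating products of cycles in `A` and the symmetric products of cycles in `B` are
rationally equivalent to zero, then `Y` has the same property if `F` is surjective.
-/

set_option autoImplicit false

noncomputable section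

namespace Pool.Agent.KAll

open Pool.Agent.ZCyc Pool.Agent.Dess
open scoped Classical LinearAlgebra.Projectivization

variable {k : Type} [Field k] {m n : ℕ}

/-- The map `F` from the product of the varieties `X a` to the variety with the equations `Y` in the
projective space of dimension `n` maps curves to curves: for every curve (with the function field
`K`) and every map `x` from the curve to the product there is a map `y` from the curve to `Y` whose
values at all points `v` of the curve are the images under `F` of the values of `x`. (Morphisms of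
varieties have this property.) -/
def IsMor (X : Fin m → Var k) (Y : Set (MvPolynomial (Fin (n + 1)) k))
    (F : (∀ a, (X a).Pts k) → GT.Pt Y k) : Prop :=
  ∀ (K : Type) [Field K] [Algebra k K], IsCurve k K → ∀ x : ∀ a, (X a).Pts K,
    ∃ y : GT.Pt Y K, ∀ (v : Place k K) (x₀ : ∀ a, (X a).Pts k),
      (∀ a, (X a).IsVal v (x a) (x₀ a)) → GT.IsVal v y (F x₀)

variable {X : Fin m → Var k} {Y : Set (MvPolynomial (Fin (n + 1)) k)}
  {F : (∀ a, (X a).Pts k) → GT.Pt Y k}

/-- push-forward of cycles which are rationally equivalent to zero -/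
theorem IsMor.push (hF : IsMor X Y F) {N : ℕ} {z : (Fin N → ∀ a, (X a).Pts k) →₀ ℚ}
    (hz : z ∈ Rat X N) : Finsupp.mapDomain (fun x j => F (x j)) z ∈ GT.Rat Y (Fin N) := by
  have h1 : Rat X N ≤ (GT.Rat Y (Fin N)).comap
      (Finsupp.lmapDomain ℚ ℚ (fun (x : Fin N → ∀ a, (X a).Pts k) (j : Fin N) => F (x j))) := by
    refine Submodule.span_le.2 ?_
    rintro _ ⟨K, i1, i2, i3, x, y, f, D, hf, hD, hval, rfl⟩
    choose y' hy' using fun j => hF K i3 (x j)
    change Finsupp.lmapDomain ℚ ℚ _ _ ∈ GT.Rat Y (Fin N)
    rw [map_finsuppSum]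
    refine Submodule.subset_span ⟨K, i1, i2, i3, y', fun v j => F (y v j), f, D, hf, hD,
      fun v j => hy' j v (y v j) fun a => hval v j a, ?_⟩
    exact Finsupp.sum_congr fun v _ => by
      rw [Finsupp.lmapDomain_apply, Finsupp.mapDomain_single]
  exact h1 hz

/-- Kimura's finiteness for the zero-cycles on a variety with the points `P`: `R n` are the cycles on
the `n`-th power which are rationally equivalent to zero. -/
def Kim {P : Type} (R : ∀ n : ℕ, Submodule ℚ ((Fin n → P) →₀ ℚ)) (A B : Submodule ℚ (P →₀ ℚ)) :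
    Prop :=
  A ⊔ B = ⊤ ∧ ∃ N : ℕ, ∀ n ≥ N,
    (∀ z : Fin n → (P →₀ ℚ), (∀ j, z j ∈ A) →
      ∑ τ : Equiv.Perm (Fin n), ((Equiv.Perm.sign τ : ℤˣ) : ℤ) • GT.ext (fun j => z (τ j)) ∈ R n) ∧
    (∀ z : Fin n → (P →₀ ℚ), (∀ j, z j ∈ B) →
      ∑ τ : Equiv.Perm (Fin n), GT.ext (fun j => z (τ j)) ∈ R n)

/-- If a product has finite-dimensional zero-cycles then so has its image. -/
theorem Kim.push (hF : IsMor X Y F) (hs : Function.Surjective F)
    {A B : Submodule ℚ ((∀ a, (X a).Pts k) →₀ ℚ)} (h : Kim (fun N => Rat X N) A B) :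
    Kim (fun N => GT.Rat Y (Fin N)) (A.map (Finsupp.lmapDomain ℚ ℚ F))
      (B.map (Finsupp.lmapDomain ℚ ℚ F)) := by
  obtain ⟨h1, N, h2⟩ := h
  refine ⟨?_, N, fun n hn => ⟨fun z hz => ?_, fun z hz => ?_⟩⟩
  · rw [← Submodule.map_sup, h1, Submodule.map_top, LinearMap.range_eq_top]
    exact Finsupp.mapDomain_surjective hs
  · choose w hw hwz using hz
    have h3 := hF.push ((h2 n hn).1 w hw)
    have h4 : z = fun j => Finsupp.mapDomain F (w j) := funext fun j => (hwz j).symm
    rw [← Finsupp.lmapDomain_apply ℚ ℚ, map_sum] at h3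
    rw [h4]
    refine (congrArg (· ∈ GT.Rat Y (Fin n)) (Finset.sum_congr rfl fun τ _ => ?_)).mp h3
    rw [map_zsmul, Finsupp.lmapDomain_apply, GT.ext_mapDomain]
  · choose w hw hwz using hz
    have h3 := hF.push ((h2 n hn).2 w hw)
    have h4 : z = fun j => Finsupp.mapDomain F (w j) := funext fun j => (hwz j).symm
    rw [← Finsupp.lmapDomain_apply ℚ ℚ, map_sum] at h3
    rw [h4]
    refine (congrArg (· ∈ GT.Rat Y (Fin n)) (Finset.sum_congr rfl fun τ _ => ?_)).mp h3
    rw [Finsupp.lmapDomain_apply, GT.ext_mapDomain]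

end Pool.Agent.KAll
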